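import Mathlib

/-!
# Shifts isolated among the transitive shifts have zero entropy
-/

namespace Pool.Agent.Results.MP_86c582_an.IsolatedZeroEntropy

open Filter Topology Set

/-- The group `ℤ^d`. -/
abbrev G (d : ℕ) : Type := Fin d → ℤ

/-- The translation `(σ^u x)_v = x_{u+v}`. -/
def shiftBy {d : ℕ} (u : G d) (x : G d → ℤ) : G d → ℤ := fun v => x (u + v)

/-- A `d`-dimensional shift: a set of configurations `ℤ^d → ℤ` with values in a finite alphabet,
compact (for the product topology, i.e. the topology of `δ`) and invariant under all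
translations. -/
def IsShift {d : ℕ} (X : Set (G d → ℤ)) : Prop :=
  (∃ A : Finset ℤ, ∀ x ∈ X, ∀ v, x v ∈ A) ∧ IsCompact X ∧ ∀ u : G d, ∀ x ∈ X, shiftBy u x ∈ X

/-- Some point of `X` has a dense orbit in `X`. -/
def IsTransitive {d : ℕ} (X : Set (G d → ℤ)) : Prop :=
  ∃ x ∈ X, X ⊆ closure (Set.range fun u : G d => shiftBy u x)

/-- The norm `‖v‖_∞`. -/
def normInf {d : ℕ} (v : G d) : ℕ := Finset.univ.sup fun i => (v i).natAbs

open Classical in
/-- The distance `δ(x,y) = 2^{-min{‖v‖_∞ : x_v ≠ y_v}}`. -/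
noncomputable def delta {d : ℕ} (x y : G d → ℤ) : ℝ :=
  if x = y then 0 else (2 : ℝ)⁻¹ ^ sInf {k : ℕ | ∃ v : G d, normInf v = k ∧ x v ≠ y v}

/-- The Hausdorff distance `δ_H`. -/
noncomputable def hdist {d : ℕ} (X Z : Set (G d → ℤ)) : ℝ :=
  max (⨆ x : X, ⨅ z : Z, delta (x : G d → ℤ) (z : G d → ℤ))
    (⨆ z : Z, ⨅ x : X, delta (x : G d → ℤ) (z : G d → ℤ))

/-- `X` is a transitive shift, isolated in the space of transitive shifts. -/
def IsIsolatedTransitive {d : ℕ} (X : Set (G d → ℤ)) : Prop :=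
  IsShift X ∧ IsTransitive X ∧
    ∃ ε : ℝ, 0 < ε ∧ ∀ Y : Set (G d → ℤ), IsShift Y → IsTransitive Y → hdist X Y < ε → Y = X

/-- The patterns on `{0,…,n-1}^d` appearing in configurations of `X`. -/
def patterns {d : ℕ} (X : Set (G d → ℤ)) (n : ℕ) : Set ((Fin d → Fin n) → ℤ) :=
  {p | ∃ x ∈ X, ∀ v : Fin d → Fin n, p v = x fun i => ((v i : ℕ) : ℤ)}

/-- The topological entropy of `X` exists and equals `h`. -/
def HasEntropy {d : ℕ} (X : Set (G d → ℤ)) (h : ℝ) : Prop :=
  Tendsto (fun n : ℕ => Real.log (Nat.card (patterns X n)) / (n : ℝ) ^ d) atTop (𝓝 h)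

/-! ### Basics -/

variable {d : ℕ}

lemma normInf_le_iff (v : G d) (r : ℕ) : normInf v ≤ r ↔ ∀ i, |v i| ≤ r := by
  unfold normInf
  rw [Finset.sup_le_iff]
  constructor
  · intro h i
    have := h i (Finset.mem_univ i)
    rw [Int.abs_eq_natAbs]
    exact_mod_cast this
  · intro h i _
    have := h i
    rw [Int.abs_eq_natAbs] at this
    exact_mod_cast this

lemma normInf_add_le (u v : G d) : normInf (u + v) ≤ normInf u + normInf v := by
  rw [normInf_le_iff]
  intro i
  have h1 := (normInf_le_iff u _).1 le_rfl i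
  have h2 := (normInf_le_iff v _).1 le_rfl i
  rw [Pi.add_apply]
  push_cast
  exact (abs_add_le _ _).trans (add_le_add h1 h2)

lemma normInf_neg (v : G d) : normInf (-v) = normInf v := by simp [normInf]

lemma finite_ball (r : ℕ) : {v : G d | normInf v ≤ r}.Finite := by
  have : {v : G d | normInf v ≤ r} ⊆ Set.pi Set.univ fun _ => Set.Icc (-(r : ℤ)) r := by
    intro v hv i _
    have := (normInf_le_iff v r).1 hv i
    rw [abs_le] at this
    exact this
  exact (Set.Finite.pi fun _ => Set.finite_Icc _ _).subset this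

/-- Cells of the block `{0,…,m-1}^d`. -/
def box (d m : ℕ) : Set (G d) := {v | ∀ i, 0 ≤ v i ∧ v i < m}

lemma normInf_le_of_box {m : ℕ} {v : G d} (hv : v ∈ box d m) : normInf v ≤ m := by
  rw [normInf_le_iff]
  intro i
  have := hv i
  rw [abs_of_nonneg this.1]
  exact this.2.le

/-- The inner cells, at distance at least `2N` from the outside of the block. -/
def inner (d m N : ℕ) : Set (G d) := {v | ∀ i, 2 * (N : ℤ) ≤ v i ∧ v i + 2 * N < m}

/-- `x` occurs in `y` at `t`: the block patterns agree. -/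
def Agree (m : ℕ) (x y : G d → ℤ) : Prop := ∀ v ∈ box d m, x v = y v

/-- Lexicographic comparison. -/
def LexLt (z z' : G d → ℤ) : Prop :=
  ∃ v, z v < z' v ∧ ∀ u, toLex u < toLex v → z u = z' u

lemma LexLt.trans {z₁ z₂ z₃ : G d → ℤ} (h₁ : LexLt z₁ z₂) (h₂ : LexLt z₂ z₃) : LexLt z₁ z₃ := by
  obtain ⟨v, hv, hv'⟩ := h₁
  obtain ⟨w, hw, hw'⟩ := h₂
  rcases lt_trichotomy (toLex v) (toLex w) with h | h | h
  · exact ⟨v, by rw [← hw' v h]; exact hv, fun u hu => (hv' u hu).trans (hw' u (hu.trans h))⟩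
  · have : v = w := toLex.injective h
    subst this
    exact ⟨v, hv.trans hw, fun u hu => (hv' u hu).trans (hw' u hu)⟩
  · exact ⟨w, by rw [hv' w h]; exact hw, fun u hu => (hv' u (hu.trans h)).trans (hw' u hu)⟩

lemma LexLt.irrefl (z : G d → ℤ) : ¬ LexLt z z := by
  rintro ⟨v, hv, _⟩
  exact lt_irrefl _ hv

/-- Local comparison of two block patterns. -/
def BoxLt (m : ℕ) (b a : G d → ℤ) : Prop :=
  ∃ v ∈ box d m, b v < a v ∧ ∀ u ∈ box d m, toLex u < toLex v → b u = a u

/-- `a` can be replaced by a smaller pattern. -/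
def NonMin (X : Set (G d → ℤ)) (m N : ℕ) (a : G d → ℤ) : Prop :=
  ∃ b ∈ X, (∀ v ∈ box d m, v ∉ inner d m N → b v = a v) ∧ BoxLt m b a

/-- The key replacement lemma. -/
lemma exists_clean {A : Finset ℤ} {X : Set (G d → ℤ)} (hXA : ∀ x ∈ X, ∀ v, x v ∈ A)
    (hinv : ∀ u : G d, ∀ x ∈ X, shiftBy u x ∈ X) {x₀ : G d → ℤ} (hx₀ : x₀ ∈ X)
    (N m r : ℕ) (a : G d → ℤ) (ha : NonMin X m N a) :
    ∃ z : G d → ℤ, (∀ v, z v ∈ A) ∧ (∀ v, normInf v ≤ r → z v = x₀ v) ∧
      (∀ t, ∃ x ∈ X, ∀ v, normInf v ≤ N → z (t + v) = x v) ∧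
      (∀ t, (∀ v ∈ box d m, r < normInf (t + v)) → ¬ ∀ v ∈ box d m, z (t + v) = a v) := by
  classical
  obtain ⟨b, hb, hbnd, v0, hv0, hlt, hfirst⟩ := ha
  let Zs : Set (G d → ℤ) := {z | (∀ v, z v ∈ A) ∧ (∀ v, normInf v ≤ r → z v = x₀ v) ∧
      (∀ t, ∃ x ∈ X, ∀ v, normInf v ≤ N → z (t + v) = x v)}
  let Zn : ℕ → Set (G d → ℤ) := fun n => {z | z ∈ Zs ∧ ∀ v, n < normInf v → z v = x₀ v}
  have hx₀Z : ∀ n, x₀ ∈ Zn n := fun n =>
    ⟨⟨hXA x₀ hx₀, fun _ _ => rfl, fun t => ⟨shiftBy t x₀, hinv t x₀ hx₀, fun _ _ => rfl⟩⟩,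
      fun _ _ => rfl⟩
  have hfin : ∀ n, Finite (Zn n) := by
    intro n
    have h1 : Finite {v : G d | normInf v ≤ n} := (finite_ball n).to_subtype
    let f : Zn n → ({v : G d | normInf v ≤ n} → A) := fun z v => ⟨z.1 v.1, z.2.1.1 v.1⟩
    apply Finite.of_injective f
    intro z z' h
    apply Subtype.ext
    funext v
    by_cases hv : normInf v ≤ n
    · exact congrArg Subtype.val (congrFun h ⟨v, hv⟩)
    · rw [z.2.2 v (by omega), z'.2.2 v (by omega)]
  have hmin : ∀ n, ∃ z ∈ Zn n, ∀ z' ∈ Zn n, ¬ LexLt z' z := by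
    intro n
    have := hfin n
    have : IsTrans (Zn n) fun z z' => LexLt z.1 z'.1 := ⟨fun _ _ _ h h' => h.trans h'⟩
    have : Std.Irrefl fun z z' : Zn n => LexLt z.1 z'.1 := ⟨fun z => LexLt.irrefl z.1⟩
    have wf := Finite.wellFounded_of_trans_of_irrefl fun z z' : Zn n => LexLt z.1 z'.1
    obtain ⟨z, _, hz⟩ := wf.has_min Set.univ ⟨⟨x₀, hx₀Z n⟩, trivial⟩
    exact ⟨z.1, z.2, fun z' hz' => hz ⟨z', hz'⟩ trivial⟩
  choose z hzZ hzmin using hmin
  have hclean : ∀ n t, (∀ v ∈ box d m, r < normInf (t + v)) →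
      (∀ v ∈ box d m, normInf (t + v) ≤ n) → ¬ ∀ v ∈ box d m, z n (t + v) = a v := by
    intro n t hout hin hocc
    let z' : G d → ℤ := fun v => if v - t ∈ box d m then b (v - t) else z n v
    have hz'1 : ∀ v, v - t ∈ box d m → z' v = b (v - t) := fun v hv => if_pos hv
    have hz'2 : ∀ v, v - t ∉ box d m → z' v = z n v := fun v hv => if_neg hv
    have hz'3 : ∀ v, v - t ∉ inner d m N → z' v = z n v := by
      intro v hv
      by_cases h : v - t ∈ box d m
      · rw [hz'1 v h, hbnd _ h hv]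
        have := hocc _ h
        rw [add_sub_cancel] at this
        exact this.symm
      · exact hz'2 v h
    refine hzmin n z' ⟨⟨?_, ?_, ?_⟩, ?_⟩ ?_
    · intro v
      by_cases h : v - t ∈ box d m
      · rw [hz'1 v h]; exact hXA b hb _
      · rw [hz'2 v h]; exact (hzZ n).1.1 v
    · intro v hv
      have : v - t ∉ box d m := by
        intro h
        have := hout _ h
        rw [add_sub_cancel] at this
        omega
      rw [hz'2 v this]
      exact (hzZ n).1.2.1 v hv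
    · intro s
      by_cases h : ∃ v, normInf v ≤ N ∧ s + v - t ∈ inner d m N
      · obtain ⟨v, hv, hvi⟩ := h
        refine ⟨shiftBy (s - t) b, hinv _ b hb, fun v' hv' => ?_⟩
        have hbx : s + v' - t ∈ box d m := by
          intro i
          have h1 := hvi i
          have h2 := (normInf_le_iff v N).1 hv i
          have h3 := (normInf_le_iff v' N).1 hv' i
          rw [abs_le] at h2 h3
          simp only [Pi.add_apply, Pi.sub_apply] at h1 ⊢
          omega
        rw [hz'1 _ hbx]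
        show b _ = b _
        congr 1
        abel
      · push Not at h
        obtain ⟨x, hx, hxe⟩ := (hzZ n).1.2.2 s
        refine ⟨x, hx, fun v hv => ?_⟩
        rw [hz'3 _ (h v hv)]
        exact hxe v hv
    · intro v hv
      have : v - t ∉ box d m := by
        intro h
        have := hin _ h
        rw [add_sub_cancel] at this
        omega
      rw [hz'2 v this]
      exact (hzZ n).2 v hv
    · refine ⟨t + v0, ?_, ?_⟩
      · rw [hz'1 _ (by rw [add_sub_cancel_left]; exact hv0), add_sub_cancel_left, hocc v0 hv0]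
        exact hlt
      · intro u hu
        by_cases h : u - t ∈ box d m
        · rw [hz'1 u h]
          have h1 : toLex (u - t) < toLex v0 := by
            have h2 : toLex (u - t) + toLex t < toLex v0 + toLex t := by
              rw [← toLex_add, ← toLex_add, sub_add_cancel, add_comm v0 t]
              exact hu
            exact lt_of_add_lt_add_right h2
          rw [hfirst _ h h1]
          have := hocc _ h
          rw [add_sub_cancel] at this
          exact this.symm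
        · exact hz'2 u h
  -- pass to the limit
  have hK : IsCompact (Set.pi Set.univ fun _ : G d => (A : Set ℤ)) :=
    isCompact_univ_pi fun _ => A.finite_toSet.isCompact
  obtain ⟨zl, _, φ, hφ, hlim⟩ := hK.tendsto_subseq (x := z) fun n v _ => (hzZ n).1.1 v
  have hev : ∀ v, ∀ᶠ k in atTop, z (φ k) v = zl v := by
    intro v
    have := (tendsto_pi_nhds.1 hlim) v
    rw [nhds_discrete, tendsto_pure] at this
    exact this
  have hevf : ∀ F : Set (G d), F.Finite → ∀ᶠ k in atTop, ∀ v ∈ F, z (φ k) v = zl v := by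
    intro F hF
    rw [Filter.eventually_all_finite hF]
    exact fun v _ => hev v
  refine ⟨zl, ?_, ?_, ?_, ?_⟩
  · intro v
    obtain ⟨k, hk⟩ := (hev v).exists
    rw [← hk]
    exact (hzZ _).1.1 v
  · intro v hv
    obtain ⟨k, hk⟩ := (hev v).exists
    rw [← hk]
    exact (hzZ _).1.2.1 v hv
  · intro t
    obtain ⟨k, hk⟩ := (hevf ((fun v => t + v) '' {v | normInf v ≤ N})
      ((finite_ball N).image _)).exists
    obtain ⟨x, hx, hxe⟩ := (hzZ (φ k)).1.2.2 t
    exact ⟨x, hx, fun v hv => by rw [← hk (t + v) ⟨v, hv, rfl⟩]; exact hxe v hv⟩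
  · intro t hout hocc
    have hboxfin : (box d m).Finite :=
      (finite_ball m).subset fun v hv => normInf_le_of_box hv
    have h1 := hevf ((fun v => t + v) '' box d m) (hboxfin.image _)
    have h2 : ∀ᶠ k in atTop, normInf t + m ≤ φ k :=
      hφ.tendsto_atTop.eventually_ge_atTop _
    obtain ⟨k, hk1, hk2⟩ := (h1.and h2).exists
    refine hclean (φ k) t hout ?_ ?_
    · intro v hv
      exact (normInf_add_le t v).trans ((Nat.add_le_add_left (normInf_le_of_box hv) _).trans hk2)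
    · intro v hv
      rw [hk1 (t + v) ⟨v, hv, rfl⟩]
      exact hocc v hv

lemma exists_orbit_agree {X : Set (G d → ℤ)} {x₀ : G d → ℤ}
    (hd : X ⊆ closure (Set.range fun u : G d => shiftBy u x₀)) {x : G d → ℤ} (hx : x ∈ X)
    {F : Set (G d)} (hF : F.Finite) : ∃ u : G d, ∀ v ∈ F, x₀ (u + v) = x v := by
  have hopen : IsOpen {y : G d → ℤ | ∀ v ∈ F, y v = x v} := by
    have : {y : G d → ℤ | ∀ v ∈ F, y v = x v} = Set.pi F fun v => {x v} := by
      ext y; simp [Set.mem_pi]
    rw [this]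
    exact isOpen_set_pi hF fun _ _ => isOpen_discrete _
  obtain ⟨y, hy, u, rfl⟩ := mem_closure_iff.1 (hd hx) _ hopen fun v _ => rfl
  exact ⟨u, hy⟩

lemma shiftBy_continuous (u : G d) : Continuous (shiftBy u : (G d → ℤ) → (G d → ℤ)) :=
  continuous_pi fun v => continuous_apply (u + v)

/-- Occurrences of a pattern which can be made smaller stay at bounded distance. -/
lemma occ_bound {X : Set (G d → ℤ)} (hX : IsShift X) {x₀ : G d → ℤ} (hx₀ : x₀ ∈ X)
    (hd : X ⊆ closure (Set.range fun u : G d => shiftBy u x₀)) (N : ℕ)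
    (star : ∀ Y : Set (G d → ℤ), IsShift Y → IsTransitive Y →
      (∀ x ∈ X, ∃ y ∈ Y, ∀ v, normInf v ≤ N → x v = y v) →
      (∀ y ∈ Y, ∃ x ∈ X, ∀ v, normInf v ≤ N → x v = y v) → Y = X) (m : ℕ) :
    ∃ D : ℕ, ∀ a, NonMin X m N a → ∀ y ∈ X, ∀ p q : G d,
      (∀ v ∈ box d m, y (p + v) = a v) → (∀ v ∈ box d m, y (q + v) = a v) →
      normInf (p - q) ≤ D := by
  classical
  obtain ⟨⟨A, hA⟩, hcomp, hinv⟩ := hX
  have hballfin : Finite {v : G d | normInf v ≤ N} := (finite_ball N).to_subtype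
  -- a radius containing all the `N`-patterns of `X`
  obtain ⟨r, hr⟩ : ∃ r : ℕ, ∀ x ∈ X, ∃ t : G d, normInf t + N ≤ r ∧
      ∀ v, normInf v ≤ N → x₀ (t + v) = x v := by
    let R : Set ({v : G d | normInf v ≤ N} → A) :=
      {p | ∃ x ∈ X, ∀ v, (p v : ℤ) = x v.1}
    have h1 : ∀ p : R, ∃ t : G d, ∀ v : {v : G d | normInf v ≤ N}, x₀ (t + v) = p.1 v := by
      rintro ⟨p, x, hx, hpx⟩
      obtain ⟨u, hu⟩ := exists_orbit_agree hd hx (finite_ball N)
      exact ⟨u, fun v => by rw [hu v.1 v.2, hpx]⟩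
    choose τ hτ using h1
    have : Fintype R := Fintype.ofFinite _
    refine ⟨(Finset.univ.sup fun p : R => normInf (τ p)) + N, fun x hx => ?_⟩
    let p : R := ⟨fun v => ⟨x v.1, hA x hx _⟩, x, hx, fun _ => rfl⟩
    refine ⟨τ p, ?_, fun v hv => hτ p ⟨v, hv⟩⟩
    have : normInf (τ p) ≤ Finset.univ.sup fun p : R => normInf (τ p) :=
      Finset.le_sup (f := fun p : R => normInf (τ p)) (Finset.mem_univ p)
    omega
  refine ⟨2 * (r + m), fun a ha y hy p q hp hq => ?_⟩
  obtain ⟨z, hzA, hz1, hz2, hz3⟩ := exists_clean hA hinv hx₀ N m r a ha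
  have hYX : closure (Set.range fun u : G d => shiftBy u z) = X := by
    refine star _ ⟨⟨A, ?_⟩, ?_, ?_⟩ ⟨z, ?_, subset_rfl⟩ ?_ ?_
    · have hc : IsClosed (Set.pi Set.univ fun _ : G d => (A : Set ℤ)) :=
        isClosed_set_pi fun _ _ => isClosed_discrete _
      have : closure (Set.range fun u : G d => shiftBy u z) ⊆
          Set.pi Set.univ fun _ : G d => (A : Set ℤ) := by
        apply closure_minimal _ hc
        rintro _ ⟨u, rfl⟩ v _
        exact hzA _
      exact fun x hx v => this hx v trivial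
    · have hK : IsCompact (Set.pi Set.univ fun _ : G d => (A : Set ℤ)) :=
        isCompact_univ_pi fun _ => A.finite_toSet.isCompact
      apply hK.of_isClosed_subset isClosed_closure
      apply closure_minimal _ (isClosed_set_pi fun _ _ => isClosed_discrete _)
      rintro _ ⟨u, rfl⟩ v _
      exact hzA _
    · intro u x hx
      refine map_mem_closure (shiftBy_continuous u) hx ?_
      rintro _ ⟨w, rfl⟩
      refine ⟨w + u, ?_⟩
      funext v
      simp [shiftBy, add_assoc]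
    · apply subset_closure
      exact ⟨0, by funext v; simp [shiftBy]⟩
    · intro x hx
      obtain ⟨t, ht, htx⟩ := hr x hx
      refine ⟨shiftBy t z, subset_closure ⟨t, rfl⟩, fun v hv => ?_⟩
      show x v = z (t + v)
      rw [hz1 (t + v) ((normInf_add_le t v).trans (by omega)), htx v hv]
    · intro w hw
      obtain ⟨u, hu⟩ := exists_orbit_agree (subset_rfl) hw (finite_ball N)
      obtain ⟨x, hx, hxe⟩ := hz2 u
      exact ⟨x, hx, fun v hv => by rw [← hxe v hv, hu v hv]⟩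
  have hboxfin : (box d m).Finite := (finite_ball m).subset fun v hv => normInf_le_of_box hv
  obtain ⟨u, hu⟩ := exists_orbit_agree (x₀ := z) (X := X) hYX.ge hy
    (((hboxfin.image fun v => p + v)).union (hboxfin.image fun v => q + v))
  have key : ∀ p : G d, (∀ v ∈ box d m, z (u + (p + v)) = a v) → normInf (u + p) ≤ r + m := by
    intro p hp
    by_contra hc
    refine hz3 (u + p) (fun v hv => ?_) (fun v hv => by rw [add_assoc]; exact hp v hv)
    have h1 := normInf_add_le (u + p + v) (-v)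
    have h2 : normInf (-v) = normInf v := normInf_neg _
    rw [h2, add_neg_cancel_right] at h1
    have := normInf_le_of_box hv
    omega
  have h1 := key p fun v hv => by rw [hu (p + v) (Or.inl ⟨v, hv, rfl⟩)]; exact hp v hv
  have h2 := key q fun v hv => by rw [hu (q + v) (Or.inr ⟨v, hv, rfl⟩)]; exact hq v hv
  have h3 := normInf_add_le (u + p) (-(u + q))
  have h4 : normInf (-(u + q)) = normInf (u + q) := normInf_neg _
  rw [h4, show u + p + -(u + q) = p - q by abel] at h3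
  omega

lemma delta_nonneg (x y : G d → ℤ) : 0 ≤ delta x y := by
  unfold delta
  split_ifs
  · exact le_rfl
  · positivity

lemma delta_le {x y : G d → ℤ} {N : ℕ} (h : ∀ v, normInf v ≤ N → x v = y v) :
    delta x y ≤ (2 : ℝ)⁻¹ ^ (N + 1) := by
  unfold delta
  split_ifs with hxy
  · positivity
  · apply pow_le_pow_of_le_one (by norm_num) (by norm_num)
    obtain ⟨v, hv⟩ := Function.ne_iff.1 hxy
    have hne : {k : ℕ | ∃ v : G d, normInf v = k ∧ x v ≠ y v}.Nonempty := ⟨_, v, rfl, hv⟩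
    obtain ⟨w, hw, hw'⟩ := Nat.sInf_mem hne
    rw [← hw]
    by_contra hc
    exact hw' (h w (by omega))

lemma hdist_le {X Y : Set (G d → ℤ)} (hX : X.Nonempty) (hY : Y.Nonempty) {N : ℕ}
    (h1 : ∀ x ∈ X, ∃ y ∈ Y, ∀ v, normInf v ≤ N → x v = y v)
    (h2 : ∀ y ∈ Y, ∃ x ∈ X, ∀ v, normInf v ≤ N → x v = y v) :
    hdist X Y ≤ (2 : ℝ)⁻¹ ^ (N + 1) := by
  have := hX.to_subtype
  have := hY.to_subtype
  apply max_le
  · apply ciSup_le
    rintro ⟨x, hx⟩
    obtain ⟨y, hy, hxy⟩ := h1 x hx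
    refine (ciInf_le ⟨0, ?_⟩ (⟨y, hy⟩ : Y)).trans (delta_le hxy)
    rintro _ ⟨z, rfl⟩
    exact delta_nonneg _ _
  · apply ciSup_le
    rintro ⟨y, hy⟩
    obtain ⟨x, hx, hxy⟩ := h2 y hy
    refine (ciInf_le ⟨0, ?_⟩ (⟨x, hx⟩ : X)).trans (delta_le hxy)
    rintro _ ⟨z, rfl⟩
    exact delta_nonneg _ _

lemma star_of_isolated {X : Set (G d → ℤ)} (h : IsIsolatedTransitive X) :
    ∃ N : ℕ, ∀ Y : Set (G d → ℤ), IsShift Y → IsTransitive Y →
      (∀ x ∈ X, ∃ y ∈ Y, ∀ v, normInf v ≤ N → x v = y v) →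
      (∀ y ∈ Y, ∃ x ∈ X, ∀ v, normInf v ≤ N → x v = y v) → Y = X := by
  obtain ⟨_, ⟨x, hx, _⟩, ε, hε, h⟩ := h
  obtain ⟨N, hN⟩ := exists_pow_lt_of_lt_one hε (show (2 : ℝ)⁻¹ < 1 by norm_num)
  refine ⟨N, fun Y hY hYt h1 h2 => h Y hY hYt ?_⟩
  obtain ⟨y, hy, _⟩ := hYt
  refine (hdist_le ⟨x, hx⟩ ⟨y, hy⟩ h1 h2).trans_lt (lt_of_le_of_lt ?_ hN)
  exact pow_le_pow_of_le_one (by norm_num) (by norm_num) (Nat.le_succ N)

/-- A uniform bound on the number of positions of patterns which can be made smaller. -/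
lemma card_nonmin_le {X : Set (G d → ℤ)} (hX : IsShift X) {m N D : ℕ}
    (hD : ∀ a, NonMin X m N a → ∀ y ∈ X, ∀ p q : G d,
      (∀ v ∈ box d m, y (p + v) = a v) → (∀ v ∈ box d m, y (q + v) = a v) →
      normInf (p - q) ≤ D) :
    ∃ Q : ℕ, ∀ y ∈ X, ∀ T : Finset (G d), (∀ t ∈ T, NonMin X m N (shiftBy t y)) →
      T.card ≤ Q := by
  classical
  obtain ⟨⟨A, hA⟩, -, hinv⟩ := hX
  have hboxfin : (box d m).Finite := (finite_ball m).subset fun v hv => normInf_le_of_box hv
  have : Finite (box d m) := hboxfin.to_subtype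
  have : Fintype (box d m → A) := Fintype.ofFinite _
  refine ⟨(finite_ball (d := d) D).toFinset.card * Fintype.card (box d m → A), ?_⟩
  intro y hy T hT
  let f : G d → (box d m → A) := fun t v => ⟨y (t + v), hA y hy _⟩
  have h1 := Finset.card_le_mul_card_image (f := f) T (finite_ball (d := d) D).toFinset.card ?_
  · refine h1.trans ?_
    gcongr
    exact (Finset.card_le_univ _)
  · intro w hw
    obtain ⟨t, ht, rfl⟩ := Finset.mem_image.1 hw
    have hsub : (T.filter fun s => f s = f t) ⊆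
        (finite_ball (d := d) D).toFinset.image fun v => t + v := by
      intro s hs
      rw [Finset.mem_filter] at hs
      rw [Finset.mem_image]
      refine ⟨s - t, ?_, by abel⟩
      rw [Set.Finite.mem_toFinset]
      refine hD (shiftBy t y) (hT t ht) y hy s t (fun v hv => ?_) (fun v hv => rfl)
      have := congrArg Subtype.val (congrFun hs.2 ⟨v, hv⟩)
      exact this
    exact (Finset.card_le_card hsub).trans Finset.card_image_le

/-- Minimal patterns with the same boundary coincide. -/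
lemma agree_of_min {X : Set (G d → ℤ)} {m N : ℕ} {a b : G d → ℤ} (ha : a ∈ X) (hb : b ∈ X)
    (hna : ¬ NonMin X m N a) (hnb : ¬ NonMin X m N b)
    (hbd : ∀ v ∈ box d m, v ∉ inner d m N → a v = b v) : ∀ v ∈ box d m, a v = b v := by
  classical
  by_contra hc
  push Not at hc
  have hboxfin : (box d m).Finite := (finite_ball m).subset fun v hv => normInf_le_of_box hv
  let F : Finset (Lex (G d)) :=
    (hboxfin.toFinset.filter fun v => a v ≠ b v).map toLex.toEmbedding
  have hF : F.Nonempty := by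
    obtain ⟨v, hv, hv'⟩ := hc
    refine ⟨toLex v, ?_⟩
    simp only [F, Finset.mem_map, Finset.mem_filter, Set.Finite.mem_toFinset]
    exact ⟨v, ⟨hv, hv'⟩, rfl⟩
  obtain ⟨w, hw, hwmin⟩ := F.exists_min_image id hF
  simp only [F, Finset.mem_map, Finset.mem_filter, Set.Finite.mem_toFinset] at hw
  obtain ⟨v, ⟨hv, hv'⟩, rfl⟩ := hw
  have hfirst : ∀ u ∈ box d m, toLex u < toLex v → a u = b u := by
    intro u hu huv
    by_contra hne
    have := hwmin (toLex u) (by
      simp only [F, Finset.mem_map, Finset.mem_filter, Set.Finite.mem_toFinset]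
      exact ⟨u, ⟨hu, hne⟩, rfl⟩)
    exact absurd huv (not_lt.2 this)
  rcases lt_or_gt_of_ne hv' with h | h
  · exact hnb ⟨a, ha, hbd, v, hv, h, hfirst⟩
  · exact hna ⟨b, hb, fun u hu hu' => (hbd u hu hu').symm, v, hv, h,
      fun u hu huv => (hfirst u hu huv).symm⟩

/-! ### Counting -/

/-- The cell of `ℤ^d` of a cell of `{0,…,m-1}^d`. -/
def cst {m : ℕ} (v : Fin d → Fin m) : G d := fun i => ((v i : ℕ) : ℤ)

/-- The position of a tile. -/
def pos (m : ℕ) {K : ℕ} (τ : Fin d → Fin K) : G d := fun i => (m : ℤ) * ((τ i : ℕ) : ℤ)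

/-- Boundary cells. -/
abbrev Bd (d m N : ℕ) : Type := {v : Fin d → Fin m // cst v ∉ inner d m N}

lemma cst_mem {m : ℕ} (v : Fin d → Fin m) : cst v ∈ box d m := by
  intro i
  have := (v i).2
  simp only [cst]
  omega

lemma exists_cst {m : ℕ} {v : G d} (hv : v ∈ box d m) : ∃ w : Fin d → Fin m, cst w = v := by
  refine ⟨fun i => ⟨(v i).toNat, ?_⟩, ?_⟩
  · have := hv i; omega
  · funext i
    have := hv i
    simp only [cst]
    omega

lemma pos_inj {m : ℕ} (hm : 0 < m) {K : ℕ} :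
    Function.Injective (pos m : (Fin d → Fin K) → G d) := by
  intro τ τ' h
  funext i
  have := congrFun h i
  simp only [pos] at this
  have h2 : ((τ i : ℕ) : ℤ) = ((τ' i : ℕ) : ℤ) :=
    mul_left_cancel₀ (by exact_mod_cast hm.ne') this
  apply Fin.ext
  exact_mod_cast h2

lemma card_patterns_le {X : Set (G d → ℤ)} {A : Finset ℤ} (hA : ∀ x ∈ X, ∀ v, x v ∈ A)
    (hinv : ∀ u : G d, ∀ x ∈ X, shiftBy u x ∈ X) {m N Q : ℕ} (hm : 0 < m)
    (hQ : ∀ y ∈ X, ∀ T : Finset (G d), (∀ t ∈ T, NonMin X m N (shiftBy t y)) → T.card ≤ Q)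
    (K : ℕ) :
    Nat.card (patterns X (m * K)) ≤
      (A.card ^ Nat.card (Bd d m N)) ^ (K ^ d) * (K ^ d * A.card ^ (m ^ d) + 1) ^ Q := by
  classical
  have hch : ∀ p : patterns X (m * K), ∃ x ∈ X, ∀ v : Fin d → Fin (m * K), p.1 v = x (cst v) :=
    fun p => p.2
  choose y hyX hy using hch
  let F1 : patterns X (m * K) → ((Fin d → Fin K) → (Bd d m N → A)) := fun p τ u =>
    ⟨y p (pos m τ + cst u.1), hA _ (hyX p) _⟩
  have hF2 : ∀ p : patterns X (m * K), ∃ F : Fin Q → Option ((Fin d → Fin K) ×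
      ((Fin d → Fin m) → A)), (∀ q τ w, F q = some (τ, w) → ∀ o, (w o : ℤ) =
        y p (pos m τ + cst o)) ∧
      (∀ τ, NonMin X m N (shiftBy (pos m τ) (y p)) → ∃ q w, F q = some (τ, w)) := by
    intro p
    let NM : Finset (Fin d → Fin K) :=
      Finset.univ.filter fun τ => NonMin X m N (shiftBy (pos m τ) (y p))
    have hc : NM.card ≤ Q := by
      rw [← Finset.card_map ⟨pos m, pos_inj hm⟩]
      apply hQ (y p) (hyX p)
      intro t ht
      obtain ⟨τ, hτ, rfl⟩ := Finset.mem_map.1 ht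
      exact (Finset.mem_filter.1 hτ).2
    obtain ⟨emb⟩ : Nonempty (NM ↪ Fin Q) := by
      apply Function.Embedding.nonempty_of_card_le
      simpa using hc
    refine ⟨fun q => if h : ∃ τ : NM, emb τ = q then
      some (h.choose.1, fun o => ⟨y p (pos m h.choose.1 + cst o), hA _ (hyX p) _⟩) else none,
      ?_, ?_⟩
    · intro q τ w h o
      dsimp only at h
      split_ifs at h with h'
      rw [Option.some.injEq, Prod.mk.injEq] at h
      rw [← h.2, ← h.1]
    · intro τ hτ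
      have hτ' : τ ∈ NM := Finset.mem_filter.2 ⟨Finset.mem_univ _, hτ⟩
      have h' : ∃ τ' : NM, emb τ' = emb ⟨τ, hτ'⟩ := ⟨_, rfl⟩
      have h2 : h'.choose = ⟨τ, hτ'⟩ := emb.injective h'.choose_spec
      refine ⟨emb ⟨τ, hτ'⟩, fun o => ⟨y p (pos m h'.choose.1 + cst o), hA _ (hyX p) _⟩, ?_⟩
      dsimp only
      rw [dif_pos h', h2]
  choose F2 hF2a hF2b using hF2
  have hinj : Function.Injective fun p : patterns X (m * K) => (F1 p, F2 p) := by
    intro p p' h
    simp only [Prod.mk.injEq] at h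
    have key : ∀ τ : Fin d → Fin K, ∀ o : Fin d → Fin m,
        y p (pos m τ + cst o) = y p' (pos m τ + cst o) := by
      intro τ o
      by_cases h1 : NonMin X m N (shiftBy (pos m τ) (y p))
      · obtain ⟨q, w, hq⟩ := hF2b p τ h1
        rw [← hF2a p q τ w hq o, hF2a p' q τ w (by rw [← h.2]; exact hq) o]
      · by_cases h2 : NonMin X m N (shiftBy (pos m τ) (y p'))
        · obtain ⟨q, w, hq⟩ := hF2b p' τ h2
          rw [← hF2a p' q τ w hq o, hF2a p q τ w (by rw [h.2]; exact hq) o]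
        · refine agree_of_min (hinv _ _ (hyX p)) (hinv _ _ (hyX p')) h1 h2 ?_ _ (cst_mem o)
          intro v hv hv'
          obtain ⟨w, rfl⟩ := exists_cst hv
          exact congrArg Subtype.val (congrFun (congrFun h.1 τ) ⟨w, hv'⟩)
    apply Subtype.ext
    funext v
    rw [hy p, hy p']
    have hK : ∀ i, (v i : ℕ) / m < K := fun i => Nat.div_lt_of_lt_mul (v i).2
    have := key (fun i => ⟨(v i : ℕ) / m, hK i⟩) (fun i => ⟨(v i : ℕ) % m, Nat.mod_lt _ hm⟩)
    have e : pos m (fun i => (⟨(v i : ℕ) / m, hK i⟩ : Fin K)) +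
        cst (fun i => (⟨(v i : ℕ) % m, Nat.mod_lt _ hm⟩ : Fin m)) = cst v := by
      funext i
      simp only [pos, cst, Pi.add_apply]
      have := Nat.div_add_mod (v i : ℕ) m
      exact_mod_cast this
    rwa [e] at this
  have := Nat.card_le_card_of_injective _ hinj
  refine this.trans (le_of_eq ?_)
  rw [Nat.card_prod, Nat.card_fun, Nat.card_fun, Nat.card_fun, Nat.card_fun]
  simp only [Nat.card_eq_fintype_card, Fintype.card_option, Fintype.card_prod, Fintype.card_fun,
    Fintype.card_fin, Fintype.card_coe]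

lemma finite_patterns {X : Set (G d → ℤ)} {A : Finset ℤ} (hA : ∀ x ∈ X, ∀ v, x v ∈ A) (n : ℕ) :
    Finite (patterns X n) := by
  let f : patterns X n → ((Fin d → Fin n) → A) := fun p v => ⟨p.1 v, by
    obtain ⟨x, hx, hp⟩ := p.2
    rw [hp v]
    exact hA x hx _⟩
  apply Finite.of_injective f
  intro p p' h
  apply Subtype.ext
  funext v
  exact congrArg Subtype.val (congrFun h v)

lemma card_patterns_mono {X : Set (G d → ℤ)} {A : Finset ℤ} (hA : ∀ x ∈ X, ∀ v, x v ∈ A)
    {n n' : ℕ} (h : n ≤ n') : Nat.card (patterns X n) ≤ Nat.card (patterns X n') := by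
  have := finite_patterns hA n'
  have := finite_patterns hA n
  let f : patterns X n' → patterns X n := fun p =>
    ⟨fun v => p.1 fun i => Fin.castLE h (v i), by
      obtain ⟨x, hx, hp⟩ := p.2
      exact ⟨x, hx, fun v => hp _⟩⟩
  apply Nat.card_le_card_of_surjective f
  rintro ⟨p, x, hx, hp⟩
  refine ⟨⟨fun v => x fun i => ((v i : ℕ) : ℤ), x, hx, fun _ => rfl⟩, ?_⟩
  apply Subtype.ext
  funext v
  exact (hp v).symm

lemma card_Bd_le {m N : ℕ} (hm : 0 < m) (hmN : 4 * N ≤ m) :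
    (Nat.card (Bd d m N) : ℝ) ≤ (m : ℝ) ^ d * (4 * N * d / m) := by
  classical
  have h1 : Nat.card (Bd d m N) = m ^ d - Fintype.card {v : Fin d → Fin m // cst v ∈ inner d m N} := by
    rw [Nat.card_eq_fintype_card, Fintype.card_subtype_compl]
    simp
  have h2 : (m - 4 * N) ^ d ≤ Fintype.card {v : Fin d → Fin m // cst v ∈ inner d m N} := by
    let f : (Fin d → Fin (m - 4 * N)) → {v : Fin d → Fin m // cst v ∈ inner d m N} := fun v =>
      ⟨fun i => ⟨v i + 2 * N, by have := (v i).2; omega⟩, by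
        intro i
        have := (v i).2
        simp only [cst]
        push_cast
        omega⟩
    have hf : Function.Injective f := by
      intro v v' h
      funext i
      have := congrArg (fun w => ((w.1 i : Fin m) : ℕ)) h
      simp only [f] at this
      apply Fin.ext
      omega
    have := Fintype.card_le_of_injective f hf
    simpa using this
  have h3 : Fintype.card {v : Fin d → Fin m // cst v ∈ inner d m N} ≤ m ^ d := by
    have := Fintype.card_subtype_le (fun v : Fin d → Fin m => cst v ∈ inner d m N)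
    simpa using this
  have h4 : (Nat.card (Bd d m N) : ℝ) ≤ (m : ℝ) ^ d - ((m : ℝ) - 4 * N) ^ d := by
    rw [h1, Nat.cast_sub h3]
    have : (((m - 4 * N : ℕ) : ℝ)) ^ d ≤ Fintype.card {v : Fin d → Fin m // cst v ∈ inner d m N} := by
      exact_mod_cast h2
    rw [Nat.cast_sub hmN] at this
    push_cast at this ⊢
    linarith
  have hm' : (0 : ℝ) < m := by exact_mod_cast hm
  have h5 : (m : ℝ) - 4 * N = m * (1 + -(4 * N / m)) := by field_simp; ring
  have h6 : 1 + (d : ℝ) * -(4 * N / m) ≤ (1 + -(4 * N / m : ℝ)) ^ d := by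
    apply one_add_mul_le_pow
    have : (4 * N / m : ℝ) ≤ 1 := by
      rw [div_le_one hm']
      exact_mod_cast hmN
    linarith
  have h7 : (m : ℝ) ^ d * (1 + (d : ℝ) * -(4 * N / m)) ≤ ((m : ℝ) - 4 * N) ^ d := by
    rw [h5, mul_pow]
    exact mul_le_mul_of_nonneg_left h6 (by positivity)
  calc (Nat.card (Bd d m N) : ℝ) ≤ (m : ℝ) ^ d - (m : ℝ) ^ d * (1 + (d : ℝ) * -(4 * N / m)) := by
        linarith
    _ = (m : ℝ) ^ d * (4 * N * d / m) := by ring

lemma log_card_le {X : Set (G d → ℤ)} {A : Finset ℤ} (hA : ∀ x ∈ X, ∀ v, x v ∈ A)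
    (hne : X.Nonempty)
    (hinv : ∀ u : G d, ∀ x ∈ X, shiftBy u x ∈ X) {m N Q : ℕ} (hm : 0 < m)
    (hmN : 4 * N ≤ m)
    (hQ : ∀ y ∈ X, ∀ T : Finset (G d), (∀ t ∈ T, NonMin X m N (shiftBy t y)) → T.card ≤ Q)
    (n : ℕ) (hn : m ≤ n) :
    Real.log (Nat.card (patterns X n)) ≤ (n : ℝ) ^ d * (2 ^ d * (4 * N * d / m) * Real.log A.card) +
      Q * Real.log ((2 * n : ℝ) ^ d * A.card ^ (m ^ d) + 1) := by
  have hn0 : 0 < n := hm.trans_le hn
  have hn0' : (0 : ℝ) < n := by exact_mod_cast hn0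
  have hm' : (0 : ℝ) < m := by exact_mod_cast hm
  set K := n / m + 1 with hK
  have hle : n ≤ m * K := by
    rw [hK, mul_add, mul_one]
    have := Nat.div_add_mod n m
    have := Nat.mod_lt n hm
    omega
  have hKle : (K : ℝ) ≤ 2 * n / m := by
    rw [hK]
    push_cast
    have h1 : ((n / m : ℕ) : ℝ) ≤ n / m := Nat.cast_div_le
    have h2 : (1 : ℝ) ≤ n / m := by
      rw [one_le_div hm']
      exact_mod_cast hn
    calc ((n / m : ℕ) : ℝ) + 1 ≤ n / m + n / m := add_le_add h1 h2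
      _ = 2 * n / m := by ring
  have hKle2 : (K : ℝ) ≤ 2 * n := by
    refine hKle.trans ?_
    rw [div_le_iff₀ hm']
    have : (1 : ℝ) ≤ m := by exact_mod_cast hm
    nlinarith
  have hK0 : (0 : ℝ) < K := by rw [hK]; positivity
  have hAc : 0 < A.card := by
    obtain ⟨x, hx⟩ := hne
    exact Finset.card_pos.2 ⟨_, hA x hx 0⟩
  have hAc' : (1 : ℝ) ≤ A.card := by exact_mod_cast hAc
  have h1 := card_patterns_mono hA hle
  have h2 := h1.trans (card_patterns_le hA hinv hm hQ K)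
  have h3 : (Nat.card (patterns X n) : ℝ) ≤
      ((A.card : ℝ) ^ Nat.card (Bd d m N)) ^ (K ^ d) *
        ((K : ℝ) ^ d * (A.card : ℝ) ^ (m ^ d) + 1) ^ Q := by
    exact_mod_cast h2
  have hcard : 0 < Nat.card (patterns X n) := by
    have := finite_patterns hA n
    obtain ⟨x, hx⟩ := hne
    have : Nonempty (patterns X n) := ⟨⟨_, x, hx, fun _ => rfl⟩⟩
    exact Nat.card_pos
  have h4 : Real.log (Nat.card (patterns X n)) ≤ Real.log
      (((A.card : ℝ) ^ Nat.card (Bd d m N)) ^ (K ^ d) *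
        ((K : ℝ) ^ d * (A.card : ℝ) ^ (m ^ d) + 1) ^ Q) :=
    Real.log_le_log (by exact_mod_cast hcard) h3
  refine h4.trans ?_
  rw [Real.log_mul (by positivity) (by positivity), Real.log_pow, Real.log_pow, Real.log_pow]
  push_cast
  have hlog : 0 ≤ Real.log A.card := Real.log_nonneg hAc'
  refine add_le_add ?_ ?_
  · have h5 : (K : ℝ) ^ d ≤ (2 * n / m) ^ d := pow_le_pow_left₀ hK0.le hKle d
    have h6 := card_Bd_le (d := d) hm hmN
    calc (K : ℝ) ^ d * (Nat.card (Bd d m N) * Real.log A.card)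
        ≤ (2 * n / m) ^ d * ((m : ℝ) ^ d * (4 * N * d / m) * Real.log A.card) := by
          gcongr
      _ = (n : ℝ) ^ d * (2 ^ d * (4 * N * d / m) * Real.log A.card) := by
          rw [div_pow, mul_pow]
          field_simp
  · gcongr

lemma tendsto_aux (hd : 1 ≤ d) (Q W : ℝ) (hW : 0 < W) :
    Tendsto (fun n : ℕ => Q * Real.log ((2 * n : ℝ) ^ d * W + 1) / (n : ℝ) ^ d) atTop (𝓝 0) := by
  have h1 : Tendsto (fun n : ℕ => (2 * n : ℝ) ^ d * W + 1) atTop atTop := by
    apply Filter.tendsto_atTop_add_const_right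
    apply Filter.Tendsto.atTop_mul_const hW
    apply (tendsto_pow_atTop (by omega)).comp
    exact Tendsto.const_mul_atTop (by norm_num) tendsto_natCast_atTop_atTop
  have h2 := (Real.isLittleO_log_id_atTop.comp_tendsto h1).tendsto_div_nhds_zero
  have h3 : Tendsto (fun n : ℕ => ((n : ℝ) ^ d)⁻¹) atTop (𝓝 0) :=
    ((tendsto_pow_atTop (by omega)).comp tendsto_natCast_atTop_atTop).inv_tendsto_atTop
  have h4 : Tendsto (fun n : ℕ => Q * (2 ^ d * W + ((n : ℝ) ^ d)⁻¹)) atTop
      (𝓝 (Q * (2 ^ d * W + 0))) := (h3.const_add _).const_mul _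
  have h5 := h2.mul h4
  rw [zero_mul] at h5
  refine h5.congr' ?_
  filter_upwards [eventually_gt_atTop 0] with n hn
  have hn' : (0 : ℝ) < n := by exact_mod_cast hn
  simp only [Function.comp, id]
  have h6 : 0 < (2 * n : ℝ) ^ d * W + 1 := by positivity
  have h7 : (n : ℝ) ^ d ≠ 0 := by positivity
  have h8 : (2 ^ d * W + ((n : ℝ) ^ d)⁻¹) = ((2 * n : ℝ) ^ d * W + 1) / (n : ℝ) ^ d := by
    rw [mul_pow]
    field_simp
  rw [h8]
  field_simp

/-- Every shift which is isolated in the space of transitive `d`-dimensional shifts (`d ≥ 1`) has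
topological entropy `0`. -/
theorem result (d : ℕ) (hd : 1 ≤ d) (X : Set ((Fin d → ℤ) → ℤ)) (h : IsIsolatedTransitive X) :
    HasEntropy X 0 := by
  obtain ⟨N, star⟩ := star_of_isolated h
  obtain ⟨hX, ⟨x₀, hx₀, hdense⟩, _⟩ := h
  have hX' := hX
  obtain ⟨⟨A, hA⟩, -, hinv⟩ := hX'
  have hAc : 0 < A.card := Finset.card_pos.2 ⟨_, hA x₀ hx₀ 0⟩
  have hAc' : (1 : ℝ) ≤ A.card := by exact_mod_cast hAc
  have hlog : 0 ≤ Real.log A.card := Real.log_nonneg hAc'
  rw [HasEntropy, Metric.tendsto_atTop]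
  intro ε hε
  -- choose the size of the blocks
  obtain ⟨m, hm1, hm2, hm3⟩ : ∃ m : ℕ, 0 < m ∧ 4 * N ≤ m ∧
      2 ^ d * (4 * N * d / m) * Real.log A.card < ε / 2 := by
    have h1 : Tendsto (fun m : ℕ => (2 : ℝ) ^ d * (4 * N * d / m) * Real.log A.card) atTop
        (𝓝 (2 ^ d * 0 * Real.log A.card)) :=
      ((tendsto_const_div_atTop_nhds_zero_nat _).const_mul _).mul_const _
    rw [mul_zero, zero_mul] at h1
    obtain ⟨m, ⟨hm1, hm2⟩, hm3⟩ := ((h1.eventually (gt_mem_nhds (half_pos hε))).and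
      (eventually_gt_atTop 0) |>.and (eventually_ge_atTop (4 * N))).exists
    exact ⟨m, hm2, hm3, hm1⟩
  obtain ⟨D, hD⟩ := occ_bound hX hx₀ hdense N star m
  obtain ⟨Q, hQ⟩ := card_nonmin_le hX hD
  have h2 := tendsto_aux hd Q ((A.card : ℝ) ^ (m ^ d)) (by positivity)
  obtain ⟨n₀, hn₀⟩ := ((h2.eventually (gt_mem_nhds (half_pos hε))).and
    (eventually_ge_atTop m)).exists_forall_of_atTop
  refine ⟨n₀, fun n hn => ?_⟩
  obtain ⟨h3, h4⟩ := hn₀ n hn
  have h5 := log_card_le hA ⟨x₀, hx₀⟩ hinv hm1 hm2 hQ n h4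
  have hn' : (0 : ℝ) < n := by exact_mod_cast (hm1.trans_le h4)
  have hnd : (0 : ℝ) < (n : ℝ) ^ d := by positivity
  have h6 : 0 ≤ Real.log (Nat.card (patterns X n)) := Real.log_natCast_nonneg _
  rw [Real.dist_eq, sub_zero, abs_of_nonneg (by positivity)]
  calc Real.log (Nat.card (patterns X n)) / (n : ℝ) ^ d
      ≤ ((n : ℝ) ^ d * (2 ^ d * (4 * N * d / m) * Real.log A.card) +
      Q * Real.log ((2 * n : ℝ) ^ d * A.card ^ (m ^ d) + 1)) / (n : ℝ) ^ d := by gcongr
    _ = 2 ^ d * (4 * N * d / m) * Real.log A.card +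
      Q * Real.log ((2 * n : ℝ) ^ d * A.card ^ (m ^ d) + 1) / (n : ℝ) ^ d := by
        field_simp
    _ < ε := by linarith

end Pool.Agent.Results.MP_86c582_an.IsolatedZeroEntropy
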